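import Pool.Agent.P8H24.PG.Stm2

/-!
# Package ACT: nilpotent groups acting on abelian groups

A finitely generated nilpotent group is a product of finitely many cyclic groups generated by the
generators (`bounded`), and the sets of group elements which carry each element of `M` into a
finitely generated subgroup are closed under products.
-/

set_option autoImplicit false

open scoped commutatorElement Pointwise

namespace Pool.Agent.P8H48.PG

open Pool.Agent.P8H24.PG

/-- Products of normal subgroups modulo a normal subgroup. -/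
theorem prod_lemma {P : Type} [Group P] (𝒢 : Set P → Prop)
    (hmul : ∀ B C, 𝒢 B → 𝒢 C → 𝒢 (B * C)) (hsing : ∀ g, 𝒢 {g}) (N : Subgroup P) [hN : N.Normal]
    (X : Set P) (Hf : P → Subgroup P) (hH : ∀ x ∈ X, (Hf x).Normal)
    (hB : ∀ x ∈ X, ∃ B, 𝒢 B ∧ (Hf x : Set P) ⊆ B * (N : Set P)) (Y : Finset P) :
    (∀ y ∈ Y, y ∈ X) →
    ∃ B, 𝒢 B ∧ ((⨆ x ∈ Y, Hf x : Subgroup P) : Set P) ⊆ B * (N : Set P) := by
  classical
  induction Y using Finset.induction_on with
  | empty =>
    intro _
    refine ⟨{1}, hsing 1, ?_⟩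
    intro p hp
    have h1 : p = 1 := by simpa using hp
    rw [h1]
    exact ⟨1, rfl, 1, N.one_mem, one_mul 1⟩
  | insert a Y ha ih =>
    intro hY
    obtain ⟨B, hB1, hB2⟩ := ih fun y hy => hY y (Finset.mem_insert_of_mem hy)
    have haX := hY a (Finset.mem_insert_self _ _)
    obtain ⟨C, hC1, hC2⟩ := hB a haX
    have := hH a haX
    refine ⟨C * B, hmul _ _ hC1 hB1, ?_⟩
    rw [Finset.iSup_insert, Subgroup.normal_mul]
    rintro _ ⟨u, hu, v, hv, rfl⟩
    obtain ⟨c, hc, n, hn, rfl⟩ := hC2 hu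
    obtain ⟨b, hb, n', hn', rfl⟩ := hB2 hv
    refine ⟨c * b, ⟨c, hc, b, hb, rfl⟩, (b⁻¹ * n * b) * n', ?_, ?_⟩
    · refine N.mul_mem ?_ hn'
      have := hN.conj_mem n hn b⁻¹
      rwa [inv_inv] at this
    · simp only
      group

/-- A nilpotent group generated by a finite set is a bounded product of the cyclic subgroups of
the generators. -/
theorem bounded (P : Type) [Group P] (hP : Group.IsNilpotent P) (X : Set P) (hX : X.Finite)
    (hcl : Subgroup.closure X = ⊤) (𝒢 : Set P → Prop)
    (hmono : ∀ B C, B ⊆ C → 𝒢 C → 𝒢 B) (hmul : ∀ B C, 𝒢 B → 𝒢 C → 𝒢 (B * C))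
    (hinv : ∀ B, 𝒢 B → 𝒢 B⁻¹) (hsing : ∀ g, 𝒢 {g})
    (hz : ∀ x ∈ X, 𝒢 (Subgroup.zpowers x : Set P)) : 𝒢 Set.univ := by
  classical
  let G : ℕ → Subgroup P := fun k => (⊤ : Subgroup P).lowerCentralSeries k
  have hGn : ∀ k, (G k).Normal := fun k => by
    change ((⊤ : Subgroup P).lowerCentralSeries k).Normal
    infer_instance
  have hcomm : ∀ k, ∀ g ∈ G k, ∀ p : P, ⁅g, p⁆ ∈ G (k + 1) := by
    intro k g hg p
    exact Subgroup.commutator_mem_commutator hg (Subgroup.mem_top p)
  -- the first factor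
  have h0 : ∃ B, 𝒢 B ∧ (G 0 : Set P) ⊆ B * (G 1 : Set P) := by
    have hnn : ∀ H : Subgroup P, G 1 ≤ H → H.Normal := by
      intro H hH
      constructor
      intro n hn g
      have : g * n * g⁻¹ = ⁅g, n⁆ * n := by
        rw [commutatorElement_def]
        group
      rw [this]
      exact H.mul_mem (hH (hcomm 0 g (Subgroup.mem_top g) n)) hn
    have h1 := prod_lemma 𝒢 hmul hsing (G 1) X (fun x => Subgroup.zpowers x ⊔ G 1)
      (fun x _ => hnn _ le_sup_right)
      (fun x hx => ⟨_, hz x hx, by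
        have := hGn 1
        rw [Subgroup.mul_normal]⟩) hX.toFinset (fun y hy => hX.mem_toFinset.1 hy)
    obtain ⟨B, hB1, hB2⟩ := h1
    refine ⟨B, hB1, fun p _ => hB2 ?_⟩
    have h2 : (⊤ : Subgroup P) ≤ ⨆ x ∈ hX.toFinset, (Subgroup.zpowers x ⊔ G 1) := by
      rw [← hcl, Subgroup.closure_le]
      intro x hx
      have h3 : Subgroup.zpowers x ⊔ G 1 ≤ ⨆ x ∈ hX.toFinset, (Subgroup.zpowers x ⊔ G 1) :=
        le_iSup₂_of_le x (hX.mem_toFinset.2 hx) le_rfl
      exact h3 (Subgroup.mem_sup_left (Subgroup.mem_zpowers x))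
    exact h2 (Subgroup.mem_top p)
  -- the step
  have hstep : ∀ k, (∃ B, 𝒢 B ∧ (G k : Set P) ⊆ B * (G (k + 1) : Set P)) →
      ∃ B, 𝒢 B ∧ (G (k + 1) : Set P) ⊆ B * (G (k + 2) : Set P) := by
    rintro k ⟨B, hB1, hB2⟩
    have hN := hGn (k + 2)
    let π := QuotientGroup.mk' (G (k + 2))
    have hπ : ∀ g : P, π g = 1 ↔ g ∈ G (k + 2) := fun g => QuotientGroup.eq_one_iff g
    have hcen : ∀ g ∈ G (k + 1), ∀ p : P, π g * π p = π p * π g := by
      intro g hg p
      have h1 : π ⁅g, p⁆ = 1 := (hπ _).2 (hcomm (k + 1) g hg p)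
      rw [map_commutatorElement, commutatorElement_eq_one_iff_mul_comm] at h1
      exact h1
    let Hf : P → Subgroup P := fun x =>
      { carrier := {h | ∃ g ∈ G k, π h = π ⁅g, x⁆}
        one_mem' := ⟨1, (G k).one_mem, by rw [commutatorElement_one_left]⟩
        mul_mem' := by
          rintro h h' ⟨g, hg, e⟩ ⟨g', hg', e'⟩
          refine ⟨g * g', (G k).mul_mem hg hg', ?_⟩
          have h1 : ⁅g * g', x⁆ = g * ⁅g', x⁆ * g⁻¹ * ⁅g, x⁆ := by
            rw [commutatorElement_def, commutatorElement_def, commutatorElement_def]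
            group
          have h2 := hcen _ (hcomm k g' hg' x) g
          have h3 := hcen _ (hcomm k g' hg' x) ⁅g, x⁆
          rw [h1, map_mul, map_mul, map_mul, map_mul, ← h2, e, e', ← h3, map_inv]
          group
        inv_mem' := by
          rintro h ⟨g, hg, e⟩
          refine ⟨g⁻¹, (G k).inv_mem hg, ?_⟩
          have h1 : ⁅g⁻¹, x⁆ = g⁻¹ * ⁅g, x⁆⁻¹ * g := by
            rw [commutatorElement_def, commutatorElement_def]
            group
          have h2 := hcen _ ((G (k + 1)).inv_mem (hcomm k g hg x)) g⁻¹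
          rw [h1, map_mul, map_mul, ← h2, map_inv, e, map_inv, map_inv]
          group }
    have hHmem : ∀ x h, h ∈ Hf x ↔ ∃ g ∈ G k, π h = π ⁅g, x⁆ := fun _ _ => Iff.rfl
    have hHn : ∀ x ∈ X, (Hf x).Normal := by
      intro x _
      constructor
      rintro h ⟨g, hg, e⟩ p
      refine ⟨g, hg, ?_⟩
      have h2 := hcen _ (hcomm k g hg x) p
      rw [map_mul, map_mul, e, ← h2, map_inv]
      group
    have hHB : ∀ x ∈ X, ∃ C, 𝒢 C ∧ (Hf x : Set P) ⊆ C * (G (k + 2) : Set P) := by
      intro x _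
      refine ⟨B * {x} * B⁻¹ * {x⁻¹}, hmul _ _ (hmul _ _ (hmul _ _ hB1 (hsing _)) (hinv _ hB1))
        (hsing _), ?_⟩
      rintro h ⟨g, hg, e⟩
      obtain ⟨b, hb, u, hu, rfl⟩ := hB2 hg
      simp only at e
      have e2 : π h = π ⁅b, x⁆ := by
        have h1 : ⁅b * u, x⁆ = b * ⁅u, x⁆ * b⁻¹ * ⁅b, x⁆ := by
          rw [commutatorElement_def, commutatorElement_def, commutatorElement_def]
          group
        have h2 : π ⁅u, x⁆ = 1 := (hπ _).2 (hcomm (k + 1) u hu x)
        rw [e, h1, map_mul, map_mul, map_mul, h2, map_inv]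
        group
      refine ⟨⁅b, x⁆, ⟨b * x * b⁻¹, ⟨b * x, ⟨b, hb, x, rfl, rfl⟩, b⁻¹, Set.inv_mem_inv.2 hb, rfl⟩,
        x⁻¹, rfl, rfl⟩, ⁅b, x⁆⁻¹ * h, ?_, ?_⟩
      · change ⁅b, x⁆⁻¹ * h ∈ G (k + 2)
        rw [← hπ, map_mul, e2, map_inv]
        group
      · simp only
        group
    obtain ⟨C, hC1, hC2⟩ := prod_lemma 𝒢 hmul hsing (G (k + 2)) X Hf hHn hHB hX.toFinset
      (fun y hy => hX.mem_toFinset.1 hy)
    refine ⟨C, hC1, Set.Subset.trans ?_ hC2⟩
    -- the commutators
    set H : Subgroup P := ⨆ x ∈ hX.toFinset, Hf x with hHdef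
    have hle : ∀ x ∈ X, Hf x ≤ H := fun x hx => le_iSup₂_of_le x (hX.mem_toFinset.2 hx) le_rfl
    have hNH : ∀ h, π h = 1 → ∀ x ∈ X, h ∈ Hf x := by
      intro h hh x _
      refine ⟨1, (G k).one_mem, ?_⟩
      rw [hh, commutatorElement_one_left, map_one]
    have hHnorm : H.Normal := by
      have key : ∀ Y : Finset P, (∀ y ∈ Y, y ∈ X) → (⨆ x ∈ Y, Hf x : Subgroup P).Normal := by
        intro Y
        induction Y using Finset.induction_on with
        | empty =>
          intro _
          simp only [Finset.notMem_empty, iSup_false, iSup_bot]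
          infer_instance
        | insert a Y ha ih =>
          intro hY
          rw [Finset.iSup_insert]
          have h1 := hHn a (hY a (Finset.mem_insert_self _ _))
          have h2 := ih fun y hy => hY y (Finset.mem_insert_of_mem hy)
          infer_instance
      exact key _ (fun y hy => hX.mem_toFinset.1 hy)
    let T : Subgroup P :=
      { carrier := {p | ∀ g ∈ G k, ⁅g, p⁆ ∈ H}
        one_mem' := by
          intro g _
          rw [commutatorElement_one_right]
          exact H.one_mem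
        mul_mem' := by
          intro p q hp hq g hg
          have h1 : ⁅g, p * q⁆ = ⁅g, p⁆ * (p * ⁅g, q⁆ * p⁻¹) := by
            rw [commutatorElement_def, commutatorElement_def, commutatorElement_def]
            group
          rw [h1]
          exact H.mul_mem (hp g hg) (hHnorm.conj_mem _ (hq g hg) p)
        inv_mem' := by
          intro p hp g hg
          have h1 : ⁅g, p⁻¹⁆ = p⁻¹ * ⁅g, p⁆⁻¹ * p⁻¹⁻¹ := by
            rw [commutatorElement_def, commutatorElement_def]
            group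
          rw [h1]
          exact hHnorm.conj_mem _ (H.inv_mem (hp g hg)) p⁻¹ }
    have hT : (⊤ : Subgroup P) ≤ T := by
      rw [← hcl, Subgroup.closure_le]
      intro x hx g hg
      exact hle x hx ⟨g, hg, rfl⟩
    have hG : G (k + 1) ≤ H := by
      change ⁅G k, (⊤ : Subgroup P)⁆ ≤ H
      rw [Subgroup.commutator_le]
      intro g hg p _
      exact hT (Subgroup.mem_top p) g hg
    exact hG
  have hall : ∀ k, ∃ B, 𝒢 B ∧ (G k : Set P) ⊆ B * (G (k + 1) : Set P) := by
    intro k
    induction k with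
    | zero => exact h0
    | succ k ih => exact hstep k ih
  have hfin : ∀ k, ∃ B, 𝒢 B ∧ (Set.univ : Set P) ⊆ B * (G k : Set P) := by
    intro k
    induction k with
    | zero =>
      refine ⟨{1}, hsing 1, fun p _ => ⟨1, rfl, p, Subgroup.mem_top p, one_mul p⟩⟩
    | succ k ih =>
      obtain ⟨B, hB1, hB2⟩ := ih
      obtain ⟨C, hC1, hC2⟩ := hall k
      refine ⟨B * C, hmul _ _ hB1 hC1, ?_⟩
      refine hB2.trans ?_
      rw [mul_assoc]
      exact Set.mul_subset_mul_left hC2
  obtain ⟨c, hc⟩ := Subgroup.nilpotent_iff_lowerCentralSeries.1 hP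
  obtain ⟨B, hB1, hB2⟩ := hfin c
  refine hmono _ _ ?_ hB1
  intro p hp
  obtain ⟨b, hb, n, hn, e⟩ := hB2 hp
  have hn1 : n = 1 := by
    have : n ∈ (⊥ : Subgroup P) := by
      rw [← hc]
      exact hn
    exact Subgroup.mem_bot.1 this
  rw [hn1] at e
  simp only [mul_one] at e
  rw [← e]
  exact hb

section Act

variable {P : Type} (M : Type) [Group P] [AddCommGroup M] [DistribMulAction P M]

/-- Each element of `M` is carried by `B` into a finitely generated subgroup. -/
def Gh (B : Set P) : Prop := ∀ z : M, ∃ Y : Submodule ℤ M, Y.FG ∧ ∀ q ∈ B, q • z ∈ Y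

theorem Gh.mono {B C : Set P} (h : B ⊆ C) (hC : Gh M C) : Gh M B := by
  intro z
  obtain ⟨Y, hY, hY2⟩ := hC z
  exact ⟨Y, hY, fun q hq => hY2 q (h hq)⟩

theorem Gh.sing (g : P) : Gh M {g} := by
  intro z
  refine ⟨Submodule.span ℤ {g • z}, Submodule.fg_span_singleton _, ?_⟩
  rintro q rfl
  exact Submodule.mem_span_singleton_self _

theorem Gh.mul {B C : Set P} (hB : Gh M B) (hC : Gh M C) : Gh M (B * C) := by
  classical
  intro z
  obtain ⟨Y, ⟨S, hS⟩, hY2⟩ := hC z
  choose F hF hF2 using hB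
  refine ⟨⨆ s ∈ S, F s, Submodule.fg_biSup S F fun s _ => hF s, ?_⟩
  rintro _ ⟨b, hb, c, hc, rfl⟩
  have h1 : ∀ y ∈ Submodule.span ℤ (S : Set M), b • y ∈ ⨆ s ∈ S, F s := by
    intro y hy
    induction hy using Submodule.span_induction with
    | mem y hy =>
      have h2 : F y ≤ ⨆ s ∈ S, F s := le_iSup₂_of_le y (Finset.mem_coe.1 hy) le_rfl
      exact h2 (hF2 y b hb)
    | zero =>
      rw [smul_zero]
      exact Submodule.zero_mem _
    | add y y' _ _ h h' =>
      rw [smul_add]
      exact Submodule.add_mem _ h h'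
    | smul n y _ h =>
      have : b • (n • y) = n • (b • y) := map_zsmul (DistribSMul.toAddMonoidHom M b) n y
      rw [this]
      exact Submodule.smul_mem _ _ h
  simp only
  rw [mul_smul]
  apply h1
  rw [hS]
  exact hY2 c hc

/-- Both `B` and the inverses have the property. -/
def Gd (B : Set P) : Prop := Gh M B ∧ Gh M B⁻¹

end Act

/-- Package ACT. -/
theorem act : S_ACT := by
  classical
  intro P M _ _ _ hP X hX hcl hXM
  have hzp : ∀ x ∈ X, Gh M (Subgroup.zpowers x : Set P) := by
    intro x hx z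
    obtain ⟨Y, hY, hz, hY2⟩ := hXM x hx z
    refine ⟨AddSubgroup.toIntSubmodule Y, ?_, ?_⟩
    · rw [Submodule.fg_iff_addSubgroup_fg]
      exact hY
    · rintro _ ⟨n, rfl⟩
      change x ^ n • z ∈ Y
      induction n using Int.induction_on with
      | zero =>
        rw [zpow_zero, one_smul]
        exact hz
      | succ n ih =>
        rw [add_comm, zpow_add, zpow_one, mul_smul]
        exact (hY2 _ ih).1
      | pred n ih =>
        rw [sub_eq_add_neg, add_comm, zpow_add, zpow_neg, zpow_one, mul_smul]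
        exact (hY2 _ ih).2
  have hall : Gd M (Set.univ : Set P) := by
    refine bounded P hP X hX hcl (Gd M) ?_ ?_ ?_ ?_ ?_
    · intro B C h hC
      exact ⟨Gh.mono M h hC.1, Gh.mono M (Set.inv_subset_inv.2 h) hC.2⟩
    · intro B C hB hC
      refine ⟨Gh.mul M hB.1 hC.1, ?_⟩
      rw [mul_inv_rev]
      exact Gh.mul M hC.2 hB.2
    · intro B hB
      refine ⟨hB.2, ?_⟩
      rw [inv_inv]
      exact hB.1
    · intro g
      refine ⟨Gh.sing M g, ?_⟩
      rw [Set.inv_singleton]
      exact Gh.sing M g⁻¹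
    · intro x hx
      refine ⟨hzp x hx, ?_⟩
      have : (Subgroup.zpowers x : Set P)⁻¹ = (Subgroup.zpowers x : Set P) := by
        ext p
        rw [Set.mem_inv]
        exact Subgroup.inv_mem_iff _
      rw [this]
      exact hzp x hx
  intro z
  obtain ⟨Y, hY, hY2⟩ := hall.1 z
  let W : Submodule ℤ M := Submodule.span ℤ (Set.range fun p : P => p • z)
  have hWY : W ≤ Y := by
    rw [Submodule.span_le]
    rintro _ ⟨p, rfl⟩
    exact hY2 p (Set.mem_univ p)
  have hWfg : W.FG := by
    have : Module.Finite ℤ Y := Module.Finite.iff_fg.2 hY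
    have hn : IsNoetherian ℤ Y := isNoetherian_of_isNoetherianRing_of_finite ℤ Y
    exact (Submodule.fg_top W).1 (by
      have h1 : IsNoetherian ℤ W := isNoetherian_of_le hWY
      exact h1.noetherian ⊤)
  refine ⟨W.toAddSubgroup, ?_, ?_, ?_⟩
  · rwa [← Submodule.fg_iff_addSubgroup_fg]
  · exact Submodule.subset_span ⟨1, one_smul P z⟩
  · intro p y hy
    change y ∈ W at hy
    change p • y ∈ W
    induction hy using Submodule.span_induction with
    | mem y hy =>
      obtain ⟨q, rfl⟩ := hy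
      simp only
      rw [← mul_smul]
      exact Submodule.subset_span ⟨p * q, rfl⟩
    | zero =>
      rw [smul_zero]
      exact Submodule.zero_mem _
    | add y y' _ _ h h' =>
      rw [smul_add]
      exact Submodule.add_mem _ h h'
    | smul n y _ h =>
      have : p • (n • y) = n • (p • y) := map_zsmul (DistribSMul.toAddMonoidHom M p) n y
      rw [this]
      exact Submodule.smul_mem _ _ h

end Pool.Agent.P8H48.PG
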